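import Pool.Agent.Helper48.CR.Goals

/-!
# Pair correlation in the hybrid model
-/

set_option autoImplicit false

open Finset Filter Topology MeasureTheory ProbabilityTheory
open Pool.Agent.Helper60.BFT (root cls Av Adapted Uni LAWG Av_mono Av_mono' Av_mul_left)
open Pool.Agent.Helper48.CR

namespace Pool.Agent.Helper74.CR

/-- iterating the ratio bound -/
theorem iter_ratio (F : ℕ → ℝ) (B : ℝ) (M : ℕ) (hB : 1 ≤ B)
    (h : ∀ j, 1 ≤ j → j ≤ M → F (j - 1) ≤ B * F j) :
    ∀ k t : ℕ, t + k ≤ M → F t ≤ B ^ k * F (t + k)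
  | 0, t, _ => by simp
  | k + 1, t, hk => by
    have h1 := iter_ratio F B M hB h k t (by omega)
    have h2 := h (t + k + 1) (by omega) (by omega)
    have h3 : t + k + 1 - 1 = t + k := by omega
    rw [h3] at h2
    calc F t ≤ B ^ k * F (t + k) := h1
      _ ≤ B ^ k * (B * F (t + k + 1)) :=
          mul_le_mul_of_nonneg_left h2 (pow_nonneg (by linarith) _)
      _ = B ^ (k + 1) * F (t + (k + 1)) := by rw [pow_succ]; ring_nf

open Classical in
/-- the number of elements of `A` killed by some `p ∈ C` is at most the number of `p ∈ C` killing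
an element of `A` -/
theorem killed_le (A C Sk : Finset ℕ) (b : ℕ → ℕ)
    (hinc : ∀ p ∈ C, ∀ x ∈ A, ∀ x' ∈ A, x ≡ x' [MOD p] → x = x') :
    A.card - (A.filter (fun x => ∀ p ∈ C, p ∈ Sk → ¬ x ≡ b p [MOD p])).card
      ≤ (C.filter (fun p => ∃ x ∈ A, x ≡ b p [MOD p])).card := by
  have h1 : A.card - (A.filter (fun x => ∀ p ∈ C, p ∈ Sk → ¬ x ≡ b p [MOD p])).card
      = (A.filter (fun x => ¬ ∀ p ∈ C, p ∈ Sk → ¬ x ≡ b p [MOD p])).card := by
    have := Finset.card_filter_add_card_filter_not (s := A)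
      (fun x => ∀ p ∈ C, p ∈ Sk → ¬ x ≡ b p [MOD p])
    omega
  rw [h1]
  have h2 : ∀ x ∈ A.filter (fun x => ¬ ∀ p ∈ C, p ∈ Sk → ¬ x ≡ b p [MOD p]),
      ∃ p, p ∈ C ∧ x ≡ b p [MOD p] := by
    intro x hx
    have := (mem_filter.1 hx).2
    push Not at this
    obtain ⟨p, hp, _, h⟩ := this
    exact ⟨p, hp, h⟩
  choose! g hg using h2
  apply Finset.card_le_card_of_injOn g
  · intro x hx
    have hx' := hx
    rw [mem_coe] at hx'
    obtain ⟨h3, h4⟩ := hg x hx'
    rw [mem_coe, mem_filter]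
    exact ⟨h3, x, (mem_filter.1 hx').1, h4⟩
  · intro x hx x' hx' hxx
    rw [mem_coe] at hx hx'
    obtain ⟨h3, h4⟩ := hg x hx
    obtain ⟨h5, h6⟩ := hg x' hx'
    rw [← hxx] at h6
    exact hinc _ h3 x (mem_filter.1 hx).1 x' (mem_filter.1 hx').1 (h4.trans h6.symm)

open Classical in
theorem pow_killed (A C Sk : Finset ℕ) (b : ℕ → ℕ) (B : ℝ) (hB : 1 ≤ B)
    (hinc : ∀ p ∈ C, ∀ x ∈ A, ∀ x' ∈ A, x ≡ x' [MOD p] → x = x') :
    B ^ (A.card - (A.filter (fun x => ∀ p ∈ C, p ∈ Sk → ¬ x ≡ b p [MOD p])).card)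
      ≤ ∏ p ∈ C, (if ∃ x ∈ A, x ≡ b p [MOD p] then B else 1) := by
  rw [Finset.prod_ite, Finset.prod_const, Finset.prod_const_one, mul_one]
  exact pow_le_pow_right₀ hB (killed_le A C Sk b hinc)

open Classical in
/-- the average of the local factor -/
theorem local_avg (A A' : Finset ℕ) (M p r : ℕ) (hr : 0 < r) (hp : r < p) (hA : A.card ≤ M)
    (hA' : A'.card ≤ M) (B : ℝ) (hB : 1 ≤ B) :
    (∑ c ∈ range p, ((if ∃ x ∈ A, x ≡ c [MOD p] then B else 1) *
      (if ∃ x ∈ A', x ≡ c [MOD p] then B else 1))) / (p : ℝ) ≤ 1 + 2 * M * B ^ 2 / r := by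
  have hp0 : (0 : ℝ) < p := by exact_mod_cast (by omega : 0 < p)
  have hr0 : (0 : ℝ) < r := by exact_mod_cast hr
  have h1 : ∀ c ∈ range p, ((if ∃ x ∈ A, x ≡ c [MOD p] then B else 1) *
      (if ∃ x ∈ A', x ≡ c [MOD p] then B else 1))
      ≤ 1 + B ^ 2 * (if ∃ x ∈ A ∪ A', x ≡ c [MOD p] then 1 else 0) := by
    intro c _
    by_cases h : ∃ x ∈ A, x ≡ c [MOD p]
    · have h' : ∃ x ∈ A ∪ A', x ≡ c [MOD p] := by
        obtain ⟨x, hx, hxc⟩ := h
        exact ⟨x, mem_union_left _ hx, hxc⟩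
      rw [if_pos h, if_pos h']
      split_ifs
      · nlinarith
      · nlinarith
    · by_cases h2 : ∃ x ∈ A', x ≡ c [MOD p]
      · have h' : ∃ x ∈ A ∪ A', x ≡ c [MOD p] := by
          obtain ⟨x, hx, hxc⟩ := h2
          exact ⟨x, mem_union_right _ hx, hxc⟩
        rw [if_neg h, if_pos h2, if_pos h']
        nlinarith
      · have h' : ¬ ∃ x ∈ A ∪ A', x ≡ c [MOD p] := by
          rintro ⟨x, hx, hxc⟩
          rcases mem_union.1 hx with hx | hx
          · exact h ⟨x, hx, hxc⟩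
          · exact h2 ⟨x, hx, hxc⟩
        rw [if_neg h, if_neg h2, if_neg h']
        simp
  have h2 : (∑ c ∈ range p, (if ∃ x ∈ A ∪ A', x ≡ c [MOD p] then (1 : ℝ) else 0)) ≤ 2 * M := by
    rw [Finset.sum_ite, Finset.sum_const_zero, add_zero, Finset.sum_const, nsmul_eq_mul, mul_one]
    have h3 : ((range p).filter (fun c => ∃ x ∈ A ∪ A', x ≡ c [MOD p])).card ≤ (A ∪ A').card := by
      have h4 : ∀ c ∈ (range p).filter (fun c => ∃ x ∈ A ∪ A', x ≡ c [MOD p]),
          ∃ x, x ∈ A ∪ A' ∧ x ≡ c [MOD p] := by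
        intro c hc
        obtain ⟨x, hx, h⟩ := (mem_filter.1 hc).2
        exact ⟨x, hx, h⟩
      choose! g hg using h4
      apply Finset.card_le_card_of_injOn g
      · intro c hc
        rw [mem_coe] at hc
        exact mem_coe.2 (hg c hc).1
      · intro c hc c' hc' hcc
        rw [mem_coe] at hc hc'
        have e1 := (hg c hc).2
        have e2 := (hg c' hc').2
        rw [← hcc] at e2
        have e3 : c ≡ c' [MOD p] := e1.symm.trans e2
        exact Nat.ModEq.eq_of_lt_of_lt e3 (mem_range.1 (mem_filter.1 hc).1)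
          (mem_range.1 (mem_filter.1 hc').1)
    have h5 : (A ∪ A').card ≤ 2 * M := (Finset.card_union_le _ _).trans (by omega)
    exact_mod_cast h3.trans h5
  have h3 : (∑ c ∈ range p, ((if ∃ x ∈ A, x ≡ c [MOD p] then B else 1) *
      (if ∃ x ∈ A', x ≡ c [MOD p] then B else 1))) ≤ p + B ^ 2 * (2 * M) := by
    refine (Finset.sum_le_sum h1).trans ?_
    rw [Finset.sum_add_distrib, Finset.sum_const, card_range, nsmul_eq_mul, mul_one,
      ← Finset.mul_sum]
    have := mul_le_mul_of_nonneg_left h2 (by positivity : (0 : ℝ) ≤ B ^ 2)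
    linarith
  rw [div_le_iff₀ hp0]
  refine h3.trans ?_
  have h4 : (1 + 2 * M * B ^ 2 / r) * (p : ℝ) = p + B ^ 2 * (2 * M) * ((p : ℝ) / r) := by
    field_simp
  rw [h4]
  have h5 : (1 : ℝ) ≤ (p : ℝ) / r := by
    rw [le_div_iff₀ hr0, one_mul]
    exact_mod_cast hp.le
  have h6 : (0 : ℝ) ≤ B ^ 2 * (2 * M) := by positivity
  nlinarith

open Classical in
/-- pointwise comparison of the events -/
theorem ev_le (S Sk C : Finset ℕ) (s s' : ℕ) (A A' : Finset ℕ) (b b' : ℕ → ℕ)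
    (hb : ∀ p ∈ C, b' p = b p) :
    ev Sk S {s} A b' * ev Sk S {s'} A' b' ≤
      ev (Sk \ C) (S \ C) {s, s'}
        ((A.filter (fun x => ∀ p ∈ C, p ∈ Sk → ¬ x ≡ b p [MOD p])) ∪
         (A'.filter (fun x => ∀ p ∈ C, p ∈ Sk → ¬ x ≡ b p [MOD p]))) b' := by
  have hn : 0 ≤ ev (Sk \ C) (S \ C) {s, s'}
        ((A.filter (fun x => ∀ p ∈ C, p ∈ Sk → ¬ x ≡ b p [MOD p])) ∪
         (A'.filter (fun x => ∀ p ∈ C, p ∈ Sk → ¬ x ≡ b p [MOD p]))) b' := by
    unfold ev
    split_ifs <;> norm_num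
  by_cases h1 : (∀ p ∈ S, ∀ t ∈ ({s} : Finset ℕ), ¬ t ≡ b' p [MOD p]) ∧
      (∀ x ∈ A, ∃ p ∈ Sk, x ≡ b' p [MOD p])
  · by_cases h2 : (∀ p ∈ S, ∀ t ∈ ({s'} : Finset ℕ), ¬ t ≡ b' p [MOD p]) ∧
      (∀ x ∈ A', ∃ p ∈ Sk, x ≡ b' p [MOD p])
    · have e1 : ev Sk S {s} A b' = 1 := by
        unfold ev
        rw [if_pos h1]
      have e2 : ev Sk S {s'} A' b' = 1 := by
        unfold ev
        rw [if_pos h2]
      have e3 : ev (Sk \ C) (S \ C) {s, s'}
          ((A.filter (fun x => ∀ p ∈ C, p ∈ Sk → ¬ x ≡ b p [MOD p])) ∪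
           (A'.filter (fun x => ∀ p ∈ C, p ∈ Sk → ¬ x ≡ b p [MOD p]))) b' = 1 := by
        unfold ev
        rw [if_pos]
        refine ⟨?_, ?_⟩
        · intro p hp t ht
          have hpS := (mem_sdiff.1 hp).1
          rcases mem_insert.1 ht with rfl | ht
          · exact h1.1 p hpS t (mem_singleton_self _)
          · exact h2.1 p hpS t ht
        · intro x hx
          rcases mem_union.1 hx with hx | hx
          · obtain ⟨hxA, hxC⟩ := mem_filter.1 hx
            obtain ⟨p, hp, hxp⟩ := h1.2 x hxA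
            refine ⟨p, mem_sdiff.2 ⟨hp, fun hpC => ?_⟩, hxp⟩
            rw [hb p hpC] at hxp
            exact hxC p hpC hp hxp
          · obtain ⟨hxA, hxC⟩ := mem_filter.1 hx
            obtain ⟨p, hp, hxp⟩ := h2.2 x hxA
            refine ⟨p, mem_sdiff.2 ⟨hp, fun hpC => ?_⟩, hxp⟩
            rw [hb p hpC] at hxp
            exact hxC p hpC hp hxp
      rw [e1, e2, e3, mul_one]
    · have e2 : ev Sk S {s'} A' b' = 0 := by
        unfold ev
        rw [if_neg h2]
      rw [e2, mul_zero]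
      exact hn
  · have e1 : ev Sk S {s} A b' = 0 := by
      unfold ev
      rw [if_neg h1]
    rw [e1, zero_mul]
    exact hn

open Classical in
theorem two (h1 : FB1G) (h2 : FB2G) (h3 : FB3G) (h4 : AVPG) (h5 : GENG) : TWOG := by
  intro S Sk C hSk hC r M hM hS s s' A A' hAM hAM' hsA hsA' hdis hinc hinc' hcross B hB hratio a
  have hr4 : 4 ≤ r := by omega
  have hr0 : (0 : ℝ) < r := by exact_mod_cast (by omega : 0 < r)
  have hr4' : (4 : ℝ) ≤ r := by exact_mod_cast hr4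
  have hMr : 4 * (M : ℝ) + 4 ≤ r := by exact_mod_cast hM
  have hM0 : (0 : ℝ) ≤ M := Nat.cast_nonneg M
  have hss : s ≠ s' := by
    rintro rfl
    exact (Finset.disjoint_left.1 hdis) (mem_insert_self _ _) (mem_insert_self _ _)
  have hAA' : Disjoint A A' := by
    rw [Finset.disjoint_left]
    intro x hx hx'
    exact (Finset.disjoint_left.1 hdis) (mem_insert_of_mem hx) (mem_insert_of_mem hx')
  have hpr : ∀ p ∈ S, (r : ℝ) + 1 ≤ p := fun p hp => by exact_mod_cast (hS p hp).2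
  -- bounds for `fu`
  have hf1 : ∀ p ∈ S, 0 ≤ fu 1 p ∧ fu 1 p ≤ 1 / r := by
    intro p hp
    have := hpr p hp
    unfold fu
    push_cast
    have h0 : (0 : ℝ) < p - 1 := by linarith
    refine ⟨by positivity, ?_⟩
    apply one_div_le_one_div_of_le hr0
    linarith
  have hf2 : ∀ p ∈ S, 0 ≤ fu 2 p ∧ fu 2 p ≤ (1 + 2 / r) * fu 1 p := by
    intro p hp
    have := hpr p hp
    unfold fu
    push_cast
    have h0 : (0 : ℝ) < p - 2 := by linarith
    have h0' : (0 : ℝ) < p - 1 := by linarith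
    refine ⟨by positivity, ?_⟩
    rw [mul_one_div, div_le_div_iff₀ h0 h0']
    have e : (1 + 2 / (r : ℝ)) * (p - 2) = (p - 2) + 2 * (p - 2) / r := by ring
    rw [e, one_mul]
    have : 1 ≤ 2 * ((p : ℝ) - 2) / r := by
      rw [le_div_iff₀ hr0]
      linarith
    linarith
  have hJ1 : ∀ J : ℕ, J ≤ 2 * M → ∀ p ∈ S, (J : ℝ) * fu 1 p ≤ 1 := by
    intro J hJ p hp
    obtain ⟨e1, e2⟩ := hf1 p hp
    have hJ' : (J : ℝ) ≤ 2 * M := by exact_mod_cast hJ
    have hJ0 : (0 : ℝ) ≤ J := Nat.cast_nonneg _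
    calc (J : ℝ) * fu 1 p ≤ (2 * M) * (1 / r) := mul_le_mul hJ' e2 e1 (by positivity)
      _ ≤ 1 := by
        rw [mul_one_div, div_le_one hr0]
        linarith
  -- the function values
  have hDk : Sk \ C ⊆ S := (Finset.sdiff_subset).trans hSk
  have hL : ∀ X : Finset ℕ, X ⊆ S → ∀ x ∈ X.toList.map (fu 1), 0 ≤ x ∧ ((2 * M : ℕ) : ℝ) * x ≤ 1 := by
    intro X hX x hx
    rw [List.mem_map] at hx
    obtain ⟨p, hp, rfl⟩ := hx
    have hp' := hX (Finset.mem_toList.1 hp)
    exact ⟨(hf1 p hp').1, hJ1 _ le_rfl p hp'⟩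
  have hD1 := h1 ((Sk \ C).toList.map (fu 1)) (2 * M) (hL _ hDk)
  have hS1 := h1 (Sk.toList.map (fu 1)) (2 * M) (hL _ hSk)
  have hFnn : ∀ j ≤ 2 * M, 0 ≤ FS (fu 1) (Sk \ C) j := fun j hj => (hD1.1 j hj).1
  have hFnn' : ∀ j ≤ 2 * M, 0 ≤ FS (fu 1) Sk j := fun j hj => (hS1.1 j hj).1
  -- (b)
  have hb2 : ∀ j ≤ 2 * M, FS (fu 2) (Sk \ C) j ≤ (1 + 2 / (r : ℝ)) ^ (2 * M) * FS (fu 1) (Sk \ C) j := by
    intro j hj
    have ht : (1 : ℝ) ≤ 1 + 2 / r := by
      have : (0 : ℝ) ≤ 2 / r := by positivity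
      linarith
    have e1 := h3.1 (Sk \ C) (fu 1) (fu 2) (1 + 2 / r) (2 * M) ht (by
      intro p hp
      have hp' := hDk hp
      refine ⟨(hf2 p hp').1, (hf1 p hp').1, (hf2 p hp').2, ?_⟩
      obtain ⟨e1, e2⟩ := hf1 p hp'
      push_cast
      calc 2 * (M : ℝ) * ((1 + 2 / r) * fu 1 p) ≤ 2 * M * ((1 + 2 / r) * (1 / r)) := by
            apply mul_le_mul_of_nonneg_left _ (by positivity)
            exact mul_le_mul_of_nonneg_left e2 (by linarith)
        _ ≤ 1 := by
          have e3 : 2 * (M : ℝ) * ((1 + 2 / r) * (1 / r)) = 2 * M * (r + 2) / r ^ 2 := by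
            field_simp
          rw [e3, div_le_one (by positivity)]
          nlinarith) j hj
    refine e1.trans ?_
    exact mul_le_mul_of_nonneg_right (pow_le_pow_right₀ ht hj) (hFnn j hj)
  -- (e)
  have he : ∀ j ≤ M, FS (fu 1) (Sk \ C) j ≤ FS (fu 1) Sk j := by
    intro j hj
    exact h3.2 Sk (Sk \ C) (fu 1) (2 * M) Finset.sdiff_subset
      (fun p hp => ⟨(hf1 p (hSk hp)).1, hJ1 _ le_rfl p (hSk hp)⟩) j (by omega)
  -- products
  set P : ℝ := ∏ p ∈ S, (1 - 1 / (p : ℝ)) with hP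
  have hfac : ∀ p ∈ S, 1 - 1 / (r : ℝ) ≤ 1 - 1 / (p : ℝ) := by
    intro p hp
    have := hpr p hp
    have e : 1 / (p : ℝ) ≤ 1 / r := one_div_le_one_div_of_le hr0 (by linarith)
    linarith
  have hr1 : (0 : ℝ) < 1 - 1 / r := by
    have : 1 / (r : ℝ) ≤ 1 / 4 := one_div_le_one_div_of_le (by norm_num) hr4'
    linarith
  have hP0 : 0 ≤ P := Finset.prod_nonneg (fun p hp => (hr1.le.trans (hfac p hp)))
  have hprod : ∏ p ∈ S \ C, (1 - (2 : ℝ) / (p : ℝ)) ≤ P ^ 2 / (1 - 1 / (r : ℝ)) ^ (2 * C.card) := by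
    have e1 : ∏ p ∈ S \ C, (1 - (2 : ℝ) / (p : ℝ)) ≤ ∏ p ∈ S \ C, (1 - 1 / (p : ℝ)) ^ 2 := by
      apply Finset.prod_le_prod
      · intro p hp
        have := hpr p (mem_sdiff.1 hp).1
        have hp0 : (0 : ℝ) < p := by linarith
        rw [sub_nonneg, div_le_one hp0]
        linarith
      · intro p hp
        have e : (1 - 1 / (p : ℝ)) ^ 2 = 1 - 2 / p + (1 / p) ^ 2 := by ring
        rw [e]
        have : 0 ≤ (1 / (p : ℝ)) ^ 2 := by positivity
        linarith
    refine e1.trans ?_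
    rw [Finset.prod_pow, le_div_iff₀ (by positivity), pow_mul', ← mul_pow]
    apply pow_le_pow_left₀
    · apply mul_nonneg
      · exact Finset.prod_nonneg (fun p hp => (hr1.le.trans (hfac p (mem_sdiff.1 hp).1)))
      · positivity
    · have e2 : P = (∏ p ∈ S \ C, (1 - 1 / (p : ℝ))) * ∏ p ∈ C, (1 - 1 / (p : ℝ)) := by
        rw [hP, Finset.prod_sdiff hC]
      rw [e2]
      apply mul_le_mul_of_nonneg_left _
        (Finset.prod_nonneg (fun p hp => (hr1.le.trans (hfac p (mem_sdiff.1 hp).1))))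
      rw [← Finset.prod_const]
      apply Finset.prod_le_prod
      · intro p _
        exact hr1.le
      · intro p hp
        exact hfac p (hC hp)
  -- the inner average
  set FA : ℝ := FS (fu 1) Sk A.card with hFA
  set FA' : ℝ := FS (fu 1) Sk A'.card with hFA'
  have hFA0 : 0 ≤ FA := hFnn' _ (by omega)
  have hFA0' : 0 ≤ FA' := hFnn' _ (by omega)
  set K0 : ℝ := P ^ 2 / (1 - 1 / (r : ℝ)) ^ (2 * C.card) * ((1 + 2 / (r : ℝ)) ^ (2 * M) * (FA * FA'))
    with hK0
  have hK00 : 0 ≤ K0 := by positivity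
  have hinner : ∀ b : ℕ → ℕ, AvS (S \ C) (fun b' => ev Sk S {s} A b' * ev Sk S {s'} A' b') b ≤
      K0 * ∏ p ∈ C, ((if ∃ x ∈ A, x ≡ b p [MOD p] then B else 1) *
        (if ∃ x ∈ A', x ≡ b p [MOD p] then B else 1)) := by
    intro b
    set Tb := A.filter (fun x => ∀ p ∈ C, p ∈ Sk → ¬ x ≡ b p [MOD p]) with hTb
    set Tb' := A'.filter (fun x => ∀ p ∈ C, p ∈ Sk → ¬ x ≡ b p [MOD p]) with hTb'
    have hTA : Tb ⊆ A := Finset.filter_subset _ _
    have hTA' : Tb' ⊆ A' := Finset.filter_subset _ _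
    have hcT := Finset.card_le_card hTA
    have hcT' := Finset.card_le_card hTA'
    have hTd : Disjoint Tb Tb' := Finset.disjoint_of_subset_left hTA
      (Finset.disjoint_of_subset_right hTA' hAA')
    have hcard : (Tb ∪ Tb').card = Tb.card + Tb'.card := Finset.card_union_of_disjoint hTd
    have hUcard : ({s, s'} : Finset ℕ).card = 2 := Finset.card_pair hss
    have step1 : AvS (S \ C) (fun b' => ev Sk S {s} A b' * ev Sk S {s'} A' b') b ≤
        AvS (S \ C) (ev (Sk \ C) (S \ C) {s, s'} (Tb ∪ Tb')) b := by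
      apply Av_mono' _ (Finset.nodup_toList _)
      intro b' hb' _
      apply ev_le
      intro p hp
      apply hb'
      rw [Finset.mem_toList, Finset.mem_sdiff, not_and, not_not]
      exact fun _ => hp
    have hUT : Disjoint ({s, s'} : Finset ℕ) (Tb ∪ Tb') := by
      rw [Finset.disjoint_left]
      intro x hx hx'
      rcases mem_insert.1 hx with rfl | hx
      · rcases mem_union.1 hx' with hx' | hx'
        · exact hsA (hTA hx')
        · exact (Finset.disjoint_left.1 hdis) (mem_insert_self _ _)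
            (mem_insert_of_mem (hTA' hx'))
      · rw [mem_singleton] at hx
        subst hx
        rcases mem_union.1 hx' with hx' | hx'
        · exact (Finset.disjoint_left.1 hdis) (mem_insert_of_mem (hTA hx'))
            (mem_insert_self _ _)
        · exact hsA' (hTA' hx')
    have hmem : ∀ x ∈ ({s, s'} : Finset ℕ) ∪ (Tb ∪ Tb'), x ∈ insert s A ∨ x ∈ insert s' A' := by
      intro x hx
      rcases mem_union.1 hx with hx | hx
      · rcases mem_insert.1 hx with rfl | hx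
        · exact Or.inl (mem_insert_self _ _)
        · rw [mem_singleton] at hx
          subst hx
          exact Or.inr (mem_insert_self _ _)
      · rcases mem_union.1 hx with hx | hx
        · exact Or.inl (mem_insert_of_mem (hTA hx))
        · exact Or.inr (mem_insert_of_mem (hTA' hx))
    have step2 := h5 (S \ C) (Sk \ C) (Finset.sdiff_subset_sdiff hSk (Finset.Subset.refl _))
      {s, s'} (Tb ∪ Tb') hUT (by
        intro p hp
        have hpS := (mem_sdiff.1 hp).1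
        refine ⟨?_, ?_⟩
        · rw [hUcard]
          have := (hS p hpS).2
          omega
        · intro x hx x' hx' hxx
          rcases hmem x hx with hx | hx
          · rcases hmem x' hx' with hx' | hx'
            · exact hinc p hpS x hx x' hx' hxx
            · exact absurd hxx (hcross p hp x hx x' hx')
          · rcases hmem x' hx' with hx' | hx'
            · exact absurd hxx.symm (hcross p hp x' hx' x hx)
            · exact hinc' p hpS x hx x' hx' hxx) b
    rw [hUcard, hcard] at step2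
    push_cast at step2
    refine step1.trans ?_
    rw [step2]
    have hj : Tb.card + Tb'.card ≤ 2 * M := by omega
    -- chain
    have c1 : FS (fu 2) (Sk \ C) (Tb.card + Tb'.card) ≤
        (1 + 2 / (r : ℝ)) ^ (2 * M) * (FS (fu 1) (Sk \ C) Tb.card * FS (fu 1) (Sk \ C) Tb'.card) := by
      refine (hb2 _ hj).trans ?_
      apply mul_le_mul_of_nonneg_left _ (by positivity)
      exact hD1.2.2.2 _ _ hj
    have c2 : FS (fu 1) (Sk \ C) Tb.card ≤ B ^ (A.card - Tb.card) * FA := by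
      have e1 := iter_ratio (fun j => FS (fu 1) (Sk \ C) j) B M hB hratio (A.card - Tb.card) Tb.card
        (by omega)
      rw [Nat.add_sub_cancel' hcT] at e1
      refine e1.trans ?_
      exact mul_le_mul_of_nonneg_left (he _ hAM) (pow_nonneg (by linarith) _)
    have c2' : FS (fu 1) (Sk \ C) Tb'.card ≤ B ^ (A'.card - Tb'.card) * FA' := by
      have e1 := iter_ratio (fun j => FS (fu 1) (Sk \ C) j) B M hB hratio (A'.card - Tb'.card)
        Tb'.card (by omega)
      rw [Nat.add_sub_cancel' hcT'] at e1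
      refine e1.trans ?_
      exact mul_le_mul_of_nonneg_left (he _ hAM') (pow_nonneg (by linarith) _)
    have c3 : B ^ (A.card - Tb.card) ≤ ∏ p ∈ C, (if ∃ x ∈ A, x ≡ b p [MOD p] then B else 1) :=
      pow_killed A C Sk b B hB (fun p hp x hx x' hx' h =>
        hinc p (hC hp) x (mem_insert_of_mem hx) x' (mem_insert_of_mem hx') h)
    have c3' : B ^ (A'.card - Tb'.card) ≤
        ∏ p ∈ C, (if ∃ x ∈ A', x ≡ b p [MOD p] then B else 1) :=
      pow_killed A' C Sk b B hB (fun p hp x hx x' hx' h =>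
        hinc' p (hC hp) x (mem_insert_of_mem hx) x' (mem_insert_of_mem hx') h)
    have hB0 : (0 : ℝ) ≤ B := by linarith
    have q0 : 0 ≤ ∏ p ∈ C, (if ∃ x ∈ A, x ≡ b p [MOD p] then B else 1) :=
      (pow_nonneg hB0 _).trans c3
    have q0' : 0 ≤ ∏ p ∈ C, (if ∃ x ∈ A', x ≡ b p [MOD p] then B else 1) :=
      (pow_nonneg hB0 _).trans c3'
    have c4 : FS (fu 1) (Sk \ C) Tb.card * FS (fu 1) (Sk \ C) Tb'.card ≤
        ((∏ p ∈ C, (if ∃ x ∈ A, x ≡ b p [MOD p] then B else 1)) * FA) *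
        ((∏ p ∈ C, (if ∃ x ∈ A', x ≡ b p [MOD p] then B else 1)) * FA') := by
      apply mul_le_mul
      · exact c2.trans (mul_le_mul_of_nonneg_right c3 hFA0)
      · exact c2'.trans (mul_le_mul_of_nonneg_right c3' hFA0')
      · exact hFnn _ (by omega)
      · exact mul_nonneg q0 hFA0
    have hFn : 0 ≤ FS (fu 1) (Sk \ C) Tb.card * FS (fu 1) (Sk \ C) Tb'.card :=
      mul_nonneg (hFnn _ (by omega)) (hFnn _ (by omega))
    have hprodnn : 0 ≤ ∏ p ∈ S \ C, (1 - (2 : ℝ) / (p : ℝ)) := by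
      apply Finset.prod_nonneg
      intro p hp
      have := hpr p (mem_sdiff.1 hp).1
      have hp0 : (0 : ℝ) < p := by linarith
      rw [sub_nonneg, div_le_one hp0]
      linarith
    calc (∏ p ∈ S \ C, (1 - (2 : ℝ) / (p : ℝ))) * FS (fu 2) (Sk \ C) (Tb.card + Tb'.card)
        ≤ (∏ p ∈ S \ C, (1 - (2 : ℝ) / (p : ℝ))) *
          ((1 + 2 / (r : ℝ)) ^ (2 * M) *
            (((∏ p ∈ C, (if ∃ x ∈ A, x ≡ b p [MOD p] then B else 1)) * FA) *
            ((∏ p ∈ C, (if ∃ x ∈ A', x ≡ b p [MOD p] then B else 1)) * FA'))) := by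
          apply mul_le_mul_of_nonneg_left _ hprodnn
          refine c1.trans ?_
          exact mul_le_mul_of_nonneg_left c4 (by positivity)
      _ ≤ (P ^ 2 / (1 - 1 / (r : ℝ)) ^ (2 * C.card)) *
          ((1 + 2 / (r : ℝ)) ^ (2 * M) *
            (((∏ p ∈ C, (if ∃ x ∈ A, x ≡ b p [MOD p] then B else 1)) * FA) *
            ((∏ p ∈ C, (if ∃ x ∈ A', x ≡ b p [MOD p] then B else 1)) * FA'))) := by
          apply mul_le_mul_of_nonneg_right hprod
          apply mul_nonneg (by positivity)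
          exact mul_nonneg (mul_nonneg q0 hFA0) (mul_nonneg q0' hFA0')
      _ = K0 * ∏ p ∈ C, ((if ∃ x ∈ A, x ≡ b p [MOD p] then B else 1) *
          (if ∃ x ∈ A', x ≡ b p [MOD p] then B else 1)) := by
          rw [Finset.prod_mul_distrib, hK0]
          ring
  -- the outer average
  have hSC : C ∪ (S \ C) = S := Finset.union_sdiff_of_subset hC
  have hout : AvS S (fun b => ev Sk S {s} A b * ev Sk S {s'} A' b) a =
      AvS C (fun b => AvS (S \ C) (fun b' => ev Sk S {s} A b' * ev Sk S {s'} A' b') b) a := by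
    have := h4.2.2.2.1 C (S \ C) Finset.disjoint_sdiff
      (fun b => ev Sk S {s} A b * ev Sk S {s'} A' b) a
    rw [hSC] at this
    exact this
  rw [hout]
  have hup : AvS C (fun b => AvS (S \ C) (fun b' => ev Sk S {s} A b' * ev Sk S {s'} A' b') b) a ≤
      AvS C (fun b => K0 * ∏ p ∈ C, ((if ∃ x ∈ A, x ≡ b p [MOD p] then B else 1) *
        (if ∃ x ∈ A', x ≡ b p [MOD p] then B else 1))) a := by
    exact Av_mono _ _ _ _ hinner
  refine hup.trans ?_
  have hmul : AvS C (fun b => K0 * ∏ p ∈ C, ((if ∃ x ∈ A, x ≡ b p [MOD p] then B else 1) *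
        (if ∃ x ∈ A', x ≡ b p [MOD p] then B else 1))) a
      = K0 * AvS C (fun b => ∏ p ∈ C, ((if ∃ x ∈ A, x ≡ b p [MOD p] then B else 1) *
        (if ∃ x ∈ A', x ≡ b p [MOD p] then B else 1))) a := Av_mul_left _ _ _ _
  rw [hmul]
  have hprodavg := h4.2.2.2.2 C (fun p c => ((if ∃ x ∈ A, x ≡ c [MOD p] then B else 1) *
        (if ∃ x ∈ A', x ≡ c [MOD p] then B else 1))) a
  rw [hprodavg]
  have hfin : ∏ p ∈ C, ((∑ c ∈ range p, ((if ∃ x ∈ A, x ≡ c [MOD p] then B else 1) *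
        (if ∃ x ∈ A', x ≡ c [MOD p] then B else 1))) / (p : ℝ))
      ≤ (1 + 2 * M * B ^ 2 / (r : ℝ)) ^ C.card := by
    rw [← Finset.prod_const]
    apply Finset.prod_le_prod
    · intro p _
      apply div_nonneg _ (Nat.cast_nonneg _)
      apply Finset.sum_nonneg
      intro c _
      apply mul_nonneg <;> split_ifs <;> linarith
    · intro p hp
      exact local_avg A A' M p r (by omega) (hS p (hC hp)).2 hAM hAM' B hB
  calc K0 * ∏ p ∈ C, ((∑ c ∈ range p, ((if ∃ x ∈ A, x ≡ c [MOD p] then B else 1) *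
        (if ∃ x ∈ A', x ≡ c [MOD p] then B else 1))) / (p : ℝ))
      ≤ K0 * (1 + 2 * M * B ^ 2 / (r : ℝ)) ^ C.card := mul_le_mul_of_nonneg_left hfin hK00
    _ = (1 + 2 * M * B ^ 2 / r) ^ C.card * (1 + 2 / r) ^ (2 * M) / (1 - 1 / r) ^ (2 * C.card) *
      ((P * FA) * (P * FA')) := by
        rw [hK0]
        ring

end Pool.Agent.Helper74.CR
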