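import Pool.Agent.Helper85.CR.Goals

/-!
# MP_bdaf95_co, project CR, packet RUN: running a program
-/

set_option autoImplicit false

namespace Pool.Agent.Helper74.CR

open Pool.Agent.Helper85.CR

namespace RUNx

theorem decomp {α : Type} (L : List α) (k : ℕ) (hk : 2 ≤ k) (hL : k ≤ L.length) :
    ∃ (u : α) (ms : List α) (v : α) (rest : List α),
      L = u :: (ms ++ v :: rest) ∧ ms.length + 2 = k := by
  obtain ⟨u, L1, rfl⟩ := List.exists_cons_of_length_pos (l := L) (by omega)
  rw [List.length_cons] at hL
  have h1 : L1.drop (k - 2) ≠ [] := by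
    intro h
    rw [List.drop_eq_nil_iff] at h
    omega
  obtain ⟨v, rest, h⟩ := List.exists_cons_of_ne_nil h1
  refine ⟨u, L1.take (k - 2), v, rest, ?_, ?_⟩
  · rw [← h, List.take_append_drop]
  · rw [List.length_take]
    omega

theorem take_d {α : Type} (u : α) (ms : List α) (v : α) (rest : List α) :
    (u :: (ms ++ v :: rest)).take (ms.length + 2) = u :: (ms ++ [v]) := by
  rw [List.take_succ_cons, List.take_append]
  simp

theorem drop_d {α : Type} (u : α) (ms : List α) (v : α) (rest : List α) :
    (u :: (ms ++ v :: rest)).drop (ms.length + 2 - 1) = v :: rest := by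
  have : ms.length + 2 - 1 = ms.length + 1 := rfl
  rw [this, List.drop_succ_cons]
  simp

end RUNx

open RUNx

/-- RUN: running a program. -/
theorem gRUN (hROTL : StmtROTL) (hGROW : StmtGROW) : StmtRUN := by
  intro W nm S A m P
  induction P with
  | nil =>
    intro s _ _ _ _ _ hD
    simpa [run] using hD
  | cons p P ih =>
    intro s hok hm hbd hinj hS hD
    obtain ⟨n, E, bd⟩ := s
    simp only at hm hbd hinj hS hD
    rw [okRun, Bool.and_eq_true] at hok
    obtain ⟨hst, hok'⟩ := hok
    rw [okStep, Bool.and_eq_true, Bool.and_eq_true, decide_eq_true_eq, decide_eq_true_eq,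
      decide_eq_true_eq] at hst
    obtain ⟨h2, hlen, hnod⟩ := hst
    simp only at h2 hlen hnod
    have hlen' : p.2 ≤ (bd.rotate p.1).length := by rw [List.length_rotate]; exact hlen
    obtain ⟨u, ms, v, rest, hL, hk⟩ := decomp (bd.rotate p.1) p.2 h2 hlen'
    have hlt : ∀ x ∈ bd.rotate p.1, x < n := fun x hx => hbd x (List.mem_rotate.1 hx)
    rw [← hk, hL, take_d] at hnod
    have hD1 := hROTL _ _ _ _ p.1 hD
    rw [← List.map_rotate, hL, List.map_cons, List.map_append, List.map_cons] at hD1
    rw [List.length_cons] at hinj hS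
    have hn_inj : ∀ i, i < n → nm i ≠ nm n := by
      intro i hi h
      have := hinj (show i < n + (P.length + 1) by omega) (show n < n + (P.length + 1) by omega) h
      omega
    have hnodm : (nm u :: (ms.map nm ++ [nm v])).Nodup := by
      have h1 : nm u :: (ms.map nm ++ [nm v]) = (u :: (ms ++ [v])).map nm := by simp
      rw [h1]
      refine List.Nodup.map_on ?_ hnod
      intro x hx y hy hxy
      have hsub : ∀ z ∈ u :: (ms ++ [v]), z ∈ bd.rotate p.1 := by
        intro z hz
        rw [hL]
        simp only [List.mem_cons, List.mem_append, List.not_mem_nil, or_false] at hz ⊢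
        tauto
      have hx' := hlt x (hsub x hx)
      have hy' := hlt y (hsub y hy)
      exact hinj (show x < n + (P.length + 1) by omega) (show y < n + (P.length + 1) by omega) hxy
    have hw : nm n ∉ S ∪ nm '' {i | m ≤ i ∧ i < n} := by
      rintro (h | ⟨i, ⟨_, hi⟩, h⟩)
      · exact hS n hm (by omega) h
      · exact hn_inj i hi h
    have hG := hGROW W _ _ (nm u) (ms.map nm) (nm v) (rest.map nm) (nm n) hD1 hw hnodm
    have hstep : step ⟨n, E, bd⟩ p =
        ⟨n + 1, (u :: (ms ++ [v])).map (fun x => (n, x)) ++ E, n :: (v :: rest ++ [u])⟩ := by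
      simp only [step]
      rw [← hk, hL, take_d, drop_d]
      rfl
    have hrun : run ⟨n, E, bd⟩ (p :: P) = run (step ⟨n, E, bd⟩ p) P := rfl
    rw [hrun, hstep]
    rw [hstep] at hok'
    have hset : insert (nm n) (S ∪ nm '' {i | m ≤ i ∧ i < n}) =
        S ∪ nm '' {i | m ≤ i ∧ i < n + 1} := by
      ext x
      constructor
      · rintro (rfl | h | ⟨i, ⟨h1, h2⟩, rfl⟩)
        · exact Or.inr ⟨n, ⟨hm, Nat.lt_succ_self n⟩, rfl⟩
        · exact Or.inl h
        · exact Or.inr ⟨i, ⟨h1, Nat.lt_succ_of_lt h2⟩, rfl⟩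
      · rintro (h | ⟨i, ⟨h1, h2⟩, rfl⟩)
        · exact Or.inr (Or.inl h)
        · rcases Nat.lt_succ_iff_lt_or_eq.1 h2 with h3 | h3
          · exact Or.inr (Or.inr ⟨i, ⟨h1, h3⟩, rfl⟩)
          · subst h3
            exact Or.inl rfl
    have hrel : (fun x y => (A x y ∨ edg nm E x y) ∨
        (x = nm n ∧ y ∈ nm u :: (ms.map nm ++ [nm v])) ∨
        (y = nm n ∧ x ∈ nm u :: (ms.map nm ++ [nm v]))) =
        fun x y => A x y ∨ edg nm ((u :: (ms ++ [v])).map (fun x => (n, x)) ++ E) x y := by
      funext x y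
      have hmem : ∀ z : W, z ∈ nm u :: (ms.map nm ++ [nm v]) ↔
          ∃ c ∈ u :: (ms ++ [v]), nm c = z := by
        intro z
        have h1 : nm u :: (ms.map nm ++ [nm v]) = (u :: (ms ++ [v])).map nm := by simp
        rw [h1, List.mem_map]
      rw [hmem, hmem]
      apply propext
      constructor
      · rintro ((h | ⟨q, hq, h⟩) | ⟨rfl, c, hc, rfl⟩ | ⟨rfl, c, hc, rfl⟩)
        · exact Or.inl h
        · exact Or.inr ⟨q, List.mem_append_right _ hq, h⟩
        · exact Or.inr ⟨(n, c), List.mem_append_left _ (List.mem_map.2 ⟨c, hc, rfl⟩),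
            Or.inl ⟨rfl, rfl⟩⟩
        · exact Or.inr ⟨(n, c), List.mem_append_left _ (List.mem_map.2 ⟨c, hc, rfl⟩),
            Or.inr ⟨rfl, rfl⟩⟩
      · rintro (h | ⟨q, hq, h⟩)
        · exact Or.inl (Or.inl h)
        · rcases List.mem_append.1 hq with hq | hq
          · obtain ⟨c, hc, rfl⟩ := List.mem_map.1 hq
            rcases h with ⟨h1, h2⟩ | ⟨h1, h2⟩
            · exact Or.inr (Or.inl ⟨h1.symm, c, hc, h2⟩)
            · exact Or.inr (Or.inr ⟨h2.symm, c, hc, h1⟩)
          · exact Or.inl (Or.inr ⟨q, hq, h⟩)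
    rw [hset, hrel] at hG
    have hlenP : n + (P.length + 1) = n + 1 + P.length := by omega
    rw [List.length_cons]
    have key := ih ⟨n + 1, (u :: (ms ++ [v])).map (fun x => (n, x)) ++ E, n :: (v :: rest ++ [u])⟩
      hok' (show m ≤ n + 1 by omega) ?_ ?_ ?_ ?_
    · simp only at key ⊢
      rw [hlenP]
      exact key
    · intro x hx
      simp only [List.mem_cons, List.mem_append, List.cons_append, List.not_mem_nil,
        or_false] at hx
      show x < n + 1
      have hmem : ∀ z, z = v ∨ z ∈ rest ∨ z = u → z < n := by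
        intro z hz
        apply hlt
        rw [hL]
        simp only [List.mem_cons, List.mem_append]
        tauto
      rcases hx with rfl | hx
      · exact Nat.lt_succ_self _
      · exact Nat.lt_succ_of_lt (hmem x hx)
    · simp only
      rw [← hlenP]
      exact hinj
    · simp only
      rw [← hlenP]
      exact hS
    · simpa using hG

end Pool.Agent.Helper74.CR
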